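import Mathlib

/-! Sample-based testing of monotone properties with bounded obstacles. -/

namespace Pool.Agent.H.MP_097bbc_lc
open Finset Classical Filter

variable {α : Type}

lemma cnt (S B : Finset α) (h : B ⊆ S) {k : ℕ} (hk : B.card ≤ k) :
    ((S.powersetCard k).filter (B ⊆ ·)).card = (S.card - B.card).choose (k - B.card) := by
  rw [← card_sdiff_of_subset h, ← card_powersetCard]
  refine card_nbij' (· \ B) (· ∪ B) (fun K hK => ?_) (fun K hK => ?_) (fun K hK => ?_)
    fun K hK => ?_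
  · simp only [coe_filter, mem_powersetCard, Set.mem_setOf_eq, mem_coe] at hK ⊢
    exact ⟨sdiff_subset_sdiff hK.1.1 subset_rfl, by rw [card_sdiff_of_subset hK.2, hK.1.2]⟩
  · simp only [coe_filter, mem_powersetCard, Set.mem_setOf_eq, mem_coe, subset_sdiff] at hK ⊢
    exact ⟨⟨union_subset hK.1.1 h, by rw [card_union_of_disjoint hK.1.2, hK.2]; omega⟩,
      subset_union_right⟩
  · simp only [coe_filter, Set.mem_setOf_eq] at hK
    exact sdiff_union_of_subset hK.2
  · simp only [mem_coe, mem_powersetCard, subset_sdiff] at hK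
    exact union_sdiff_cancel_right hK.1.2

lemma ch {n k : ℕ} (hk : k ≤ n) (j : ℕ) (hj : j ≤ k) : ((n - j).choose (k - j) : ℝ) =
    n.choose k * ∏ i ∈ range j, (((k : ℝ) - i) / (n - i)) := by
  induction j with
  | zero => simp
  | succ j ih =>
    rw [prod_range_succ, ← mul_assoc, ← ih (by omega)]
    have h := Nat.add_one_mul_choose_eq (n - (j + 1)) (k - (j + 1))
    rw [show n - (j + 1) + 1 = n - j by omega, show k - (j + 1) + 1 = k - j by omega] at h
    have h' := congrArg (Nat.cast : ℕ → ℝ) h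
    rw [Nat.cast_mul, Nat.cast_mul, Nat.cast_sub (by omega), Nat.cast_sub (by omega)] at h'
    have : (0 : ℝ) < n - j := by
      have : (j : ℝ) < n := by exact_mod_cast (show j < n by omega)
      linarith
    field_simp
    linarith

lemma second (S : Finset α) (F : Finset (Finset α)) {N k : ℕ} (h1 : ∀ B ∈ F, B ⊆ S ∧ B.card = N)
    (h2 : ∀ B ∈ F, ∀ C ∈ F, B ≠ C → Disjoint B C) (hk : 2 * N ≤ k) (hn : k ≤ S.card) :
    (((S.powersetCard k).filter fun K => ∀ B ∈ F, ¬ B ⊆ K).card : ℝ) *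
      (F.card * (((k : ℝ) - N) / S.card) ^ N) ≤ S.card.choose k := by
  set n := S.card
  set Ω := S.powersetCard k
  set ρ := ∏ i ∈ range N, (((k : ℝ) - i) / (n - i))
  set T : ℝ := ((n.choose k : ℕ) : ℝ)
  have T0 : 0 < T := by simp only [T]; exact_mod_cast Nat.choose_pos hn
  have kn : (k : ℝ) ≤ n := by exact_mod_cast hn
  have Nk : 2 * (N : ℝ) ≤ k := by exact_mod_cast hk
  have iN : ∀ i ∈ range N, (i : ℝ) + 1 ≤ N := fun i hi => by exact_mod_cast mem_range.mp hi
  have N0 : (0 : ℝ) ≤ N := by positivity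
  have r1 : (((k : ℝ) - N) / n) ^ N ≤ ρ := by
    rw [← card_range N, ← prod_const, card_range]
    refine prod_le_prod (fun i _ => div_nonneg (by linarith) (by positivity)) fun i hi => ?_
    have := iN i hi
    have : (0 : ℝ) ≤ i := by positivity
    exact div_le_div₀ (by linarith) (by linarith) (by linarith) (by linarith)
  have r0 : 0 ≤ ρ := le_trans (pow_nonneg (div_nonneg (by linarith) (by positivity)) _) r1
  have r2 : ∏ i ∈ range (N + N), (((k : ℝ) - i) / (n - i)) ≤ ρ * ρ := by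
    rw [prod_range_add]
    refine mul_le_mul_of_nonneg_left (prod_le_prod (fun i hi => ?_) fun i hi => ?_) r0
    · have := iN i hi
      push_cast
      exact div_nonneg (by linarith) (by linarith)
    · have := iN i hi
      have : (0 : ℝ) ≤ i := by positivity
      push_cast
      rw [div_le_div_iff₀ (by linarith) (by linarith)]
      nlinarith
  let I : Finset α → Finset α → ℝ := fun B K => if B ⊆ K then 1 else 0
  have e1 : ∀ B ∈ F, ∑ K ∈ Ω, I B K = T * ρ := fun B hB => by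
    simp only [I, sum_boole]
    rw [cnt S B (h1 B hB).1 (by rw [(h1 B hB).2]; omega), (h1 B hB).2, ch hn N (by omega)]
  have e2 : ∀ B ∈ F, ∀ C ∈ F, ∑ K ∈ Ω, I B K * I C K ≤
      T * (ρ * ρ) + if B = C then T * ρ else 0 := fun B hB C hC => by
    split_ifs with e
    · subst e
      have : ∀ K, I B K * I B K = I B K := fun K => by simp only [I]; split_ifs <;> simp
      simp only [this, e1 B hB]
      exact le_add_of_nonneg_left (by positivity)
    · have : ∀ K, I B K * I C K = if B ∪ C ⊆ K then 1 else 0 := fun K => by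
        simp only [I, union_subset_iff]; split_ifs <;> simp_all
      have c : (B ∪ C).card = N + N := by
        rw [card_union_of_disjoint (h2 B hB C hC e), (h1 B hB).2, (h1 C hC).2]
      simp only [this, sum_boole]
      rw [cnt S _ (union_subset (h1 B hB).1 (h1 C hC).1) (by omega), c, ch hn _ (by omega),
        add_zero]
      exact mul_le_mul_of_nonneg_left r2 T0.le
  set μ := F.card * ρ
  have s1 : ∑ K ∈ Ω, ∑ B ∈ F, I B K = T * μ := by
    rw [sum_comm, sum_congr rfl e1, sum_const, nsmul_eq_mul]; ring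
  have s2 : ∑ K ∈ Ω, (∑ B ∈ F, I B K) ^ 2 ≤ T * μ ^ 2 + T * μ := by
    calc _ = ∑ B ∈ F, ∑ C ∈ F, ∑ K ∈ Ω, I B K * I C K := by
          simp only [sq, sum_mul_sum]
          rw [sum_comm]
          exact sum_congr rfl fun B _ => sum_comm
      _ ≤ ∑ B ∈ F, (F.card * (T * (ρ * ρ)) + T * ρ) := sum_le_sum fun B hB =>
          (sum_le_sum (e2 B hB)).trans (le_of_eq (by
            rw [sum_add_distrib, sum_const, nsmul_eq_mul, sum_ite_eq, if_pos hB]))
      _ = _ := by rw [sum_const, nsmul_eq_mul]; ring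
  set Z := Ω.filter fun K => ∀ B ∈ F, ¬ B ⊆ K
  have s3 : Z.card * μ ^ 2 ≤ ∑ K ∈ Ω, (∑ B ∈ F, I B K - μ) ^ 2 := by
    refine le_trans (le_of_eq ?_) (sum_le_sum_of_subset_of_nonneg (filter_subset _ _ : Z ⊆ Ω)
      fun _ _ _ => sq_nonneg _)
    rw [← nsmul_eq_mul, ← sum_const]
    refine sum_congr rfl fun K hK => ?_
    rw [sum_eq_zero fun B hB => if_neg ((mem_filter.mp hK).2 B hB)]; ring
  have cΩ : (Ω.card : ℝ) = T := by simp only [Ω, card_powersetCard, T, n]
  simp only [sub_sq, sum_add_distrib, sum_sub_distrib, ← sum_mul, ← mul_sum, s1, sum_const,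
    nsmul_eq_mul, cΩ] at s3
  have s4 : Z.card * μ ^ 2 ≤ T * μ := by nlinarith
  have μ0 : 0 ≤ μ := by positivity
  refine le_trans (mul_le_mul_of_nonneg_left (mul_le_mul_of_nonneg_left r1 (by positivity))
    (by positivity)) ?_
  rcases μ0.eq_or_lt with e | e
  · rw [show (F.card : ℝ) * ρ = 0 from e.symm, mul_zero]; exact T0.le
  · exact le_of_mul_le_mul_right (by nlinarith) e

variable (Q : Finset α → Prop) (N : ℕ)

lemma blocks (mono : ∀ S U, Q S → U ⊆ S → Q U) (sm : ∀ S, ¬ Q S → ∃ W ⊆ S, W.card ≤ N ∧ ¬ Q W)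
    (N0 : 0 < N) (S : Finset α) (m : ℕ) (hm : m * N ≤ S.card)
    (far : ∀ D ⊆ S, D.card ≤ m * N → ¬ Q (S \ D)) : ∃ F : Finset (Finset α), F.card = m ∧
      (∀ B ∈ F, (B ⊆ S ∧ B.card = N) ∧ ¬ Q B) ∧ ∀ B ∈ F, ∀ C ∈ F, B ≠ C → Disjoint B C := by
  induction m with
  | zero => exact ⟨∅, rfl, by simp, by simp⟩
  | succ m ih =>
    rw [Nat.succ_mul] at hm far
    obtain ⟨F, c, h1, h2⟩ := ih (by omega) fun D s h => far D s (by omega)
    have s : F.biUnion id ⊆ S := biUnion_subset.mpr fun B hB => (h1 B hB).1.1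
    have cD : (F.biUnion id).card ≤ m * N :=
      c ▸ card_biUnion_le_card_mul F id N fun B hB => (h1 B hB).1.2.le
    obtain ⟨W, w1, w2, w3⟩ := sm _ (far _ s (by omega))
    obtain ⟨V, v1, v2, v3⟩ := exists_subsuperset_card_eq w1 w2 (by
      rw [card_sdiff_of_subset s]; omega)
    rw [subset_sdiff] at v2
    have dj : ∀ B ∈ F, Disjoint V B := fun B hB => v2.2.mono_right (subset_biUnion_of_mem id hB)
    have nV : V ∉ F := fun h => by
      rw [disjoint_self_iff_empty _ |>.mp (dj V h)] at v3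
      simp at v3
      omega
    refine ⟨insert V F, by rw [card_insert_of_notMem nV, c], forall_mem_insert _ _ _ |>.mpr
      ⟨⟨⟨v2.1, v3⟩, fun h => w3 (mono _ _ h v1)⟩, h1⟩, fun B hB C hC n => ?_⟩
    rcases mem_insert.mp hB with e | hB' <;> rcases mem_insert.mp hC with e' | hC'
    · exact (n (e.trans e'.symm)).elim
    · exact e ▸ dj C hC'
    · exact e' ▸ (dj B hB').symm
    · exact h2 B hB' C hC' n

theorem tester (mono : ∀ S U, Q S → U ⊆ S → Q U)
    (sm : ∀ S, ¬ Q S → ∃ W ⊆ S, W.card ≤ N ∧ ¬ Q W) (N0 : 0 < N) {ε p : ℝ} (e0 : 0 < ε)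
    (e1 : ε < 1) (p0 : 0 < p) : ∃ k : ℕ → ℕ, (∀ n, k n ≤ n) ∧
      (fun n => (k n : ℝ)) =o[atTop] (fun n => (n : ℝ)) ∧ ∀ S : Finset α,
        (∀ D ⊆ S, (D.card : ℝ) ≤ ε * S.card → ¬ Q (S \ D)) →
        (((S.powersetCard (k S.card)).filter Q).card : ℝ) ≤
          p * (S.powersetCard (k S.card)).card := by
  let W : ℕ → ℕ → Prop := fun n k => k ≤ n ∧ ∀ S : Finset α, S.card = n →
    (∀ D ⊆ S, (D.card : ℝ) ≤ ε * S.card → ¬ Q (S \ D)) →
      (((S.powersetCard k).filter Q).card : ℝ) ≤ p * (S.powersetCard k).card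
  have ex : ∀ n, ∃ k, W n k := fun n => ⟨n, le_rfl, by
    rintro S rfl h
    have := h ∅ (empty_subset _) (by simp; positivity)
    rw [powersetCard_self, filter_singleton, if_neg (by simpa using this)]
    simp [p0.le]⟩
  refine ⟨fun n => Nat.find (ex n), fun n => (Nat.find_spec (ex n)).1, ?_,
    fun S => (Nat.find_spec (ex S.card)).2 S rfl⟩
  rw [Asymptotics.isLittleO_iff]
  intro δ' d0'
  obtain ⟨δ, d0, d1, d2⟩ : ∃ δ : ℝ, 0 < δ ∧ δ ≤ 1 ∧ δ ≤ δ' :=
    ⟨min 1 δ', by positivity, min_le_left _ _, min_le_right _ _⟩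
  have N1 : (0 : ℝ) < N := by exact_mod_cast N0
  have c0 : 0 < p * (δ / 2) ^ N := by positivity
  filter_upwards [tendsto_natCast_atTop_atTop.eventually_ge_atTop ((2 * N + 2) / δ * 2),
    tendsto_natCast_atTop_atTop.eventually_ge_atTop ((1 / (p * (δ / 2) ^ N) + 1) * N / ε)]
    with n n1 n2
  have n0 : (0 : ℝ) ≤ n := by positivity
  rw [div_mul_eq_mul_div, div_le_iff₀ d0] at n1
  rw [div_le_iff₀ e0] at n2
  have k1 := Nat.floor_le (mul_nonneg d0.le n0)
  have k2 := Nat.lt_floor_add_one (δ * n)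
  have m1 := Nat.floor_le (show 0 ≤ ε * n / N by positivity)
  have m2 := Nat.lt_floor_add_one (ε * n / N)
  rw [le_div_iff₀ N1] at m1
  rw [div_lt_iff₀ N1] at m2
  have k3 : ⌊δ * n⌋₊ ≤ n := by
    have : (⌊δ * n⌋₊ : ℝ) ≤ n := by nlinarith
    exact_mod_cast this
  have hW : W n ⌊δ * n⌋₊ := ⟨k3, by
    rintro S rfl far
    obtain ⟨F, c, h1, h2⟩ := blocks Q N mono sm N0 S ⌊ε * S.card / N⌋₊
      (by have : (⌊ε * S.card / N⌋₊ * N : ℝ) ≤ S.card := by nlinarith
          exact_mod_cast this)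
      fun D s h => far D s (le_trans (by exact_mod_cast h) m1)
    have h3 := second S F (k := ⌊δ * S.card⌋₊) (fun B hB => (h1 B hB).1) h2
      (by have : (2 * N : ℝ) ≤ ⌊δ * S.card⌋₊ := by nlinarith
          exact_mod_cast this) k3
    have h4 : ((S.powersetCard ⌊δ * S.card⌋₊).filter Q).card ≤
        ((S.powersetCard ⌊δ * S.card⌋₊).filter fun K => ∀ B ∈ F, ¬ B ⊆ K).card :=
      card_le_card (monotone_filter_right _ fun K _ h B hB s => (h1 B hB).2 (mono _ _ h s))
    have n3 : (0 : ℝ) < S.card := by nlinarith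
    have h5 : (δ / 2) ^ N ≤ (((⌊δ * S.card⌋₊ : ℝ) - N) / S.card) ^ N :=
      pow_le_pow_left₀ (by positivity) (by rw [le_div_iff₀ n3]; nlinarith) _
    have h6 : 1 ≤ p * (F.card * (δ / 2) ^ N) := by
      have : 1 / (p * (δ / 2) ^ N) ≤ F.card := by rw [c]; nlinarith
      rw [div_le_iff₀ c0] at this
      linarith
    rw [card_powersetCard]
    have h7 : (((S.powersetCard ⌊δ * S.card⌋₊).filter Q).card : ℝ) * (F.card * (δ / 2) ^ N) ≤
        S.card.choose ⌊δ * S.card⌋₊ := le_trans (by gcongr) h3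
    have h8 : (0 : ℝ) ≤ ((S.powersetCard ⌊δ * S.card⌋₊).filter Q).card := by positivity
    nlinarith⟩
  have := Nat.find_min' (ex n) hW
  have : (Nat.find (ex n) : ℝ) ≤ ⌊δ * n⌋₊ := by exact_mod_cast this
  simp only [Real.norm_natCast]
  nlinarith

end Pool.Agent.H.MP_097bbc_lc
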