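import Pool.Agent.H.MP_0ff5c6_co.D

/-! The stretching construction and stretched paths describe the same configurations. -/

namespace Pool.Agent.H.MP_097bbc_lc
open Finset Classical Pool.Agent.H.MP_0ff5c6_co

variable {S : Finset P}

def IsStr (T : Finset P) (h : P → ℝ) : Prop :=
  (∀ a ∈ T, ∀ b ∈ T, a ≠ b → a.1 ≠ b.1 ∧ a.2 ≠ b.2) ∧
  (∀ a ∈ T, ∀ t ∈ T, a.2 < t.2 → h a < h t) ∧
  ∀ a ∈ T, ∀ b ∈ T, ∀ t ∈ T, a ≠ b → a.2 < t.2 → b.2 < t.2 →
    h a + (h b - h a) / (b.1 - a.1) * (t.1 - a.1) < h t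

def Str (S : Finset P) : Prop := ∃ T h, IsStr T h ∧ ∃ f : P → P,
  Set.BijOn f S ((fun t => (t.1, h t)) '' T) ∧ ∀ a ∈ S, ∀ b ∈ S, ∀ c ∈ S,
    SignType.sign (dt a b c) = SignType.sign (dt (f a) (f b) (f c))

def Rp (S : Finset P) (X H : P → ℝ) : Prop := (∀ a ∈ S, ∀ b ∈ S, a ≠ b → X a ≠ X b ∧ H a ≠ H b) ∧
  ∀ a ∈ S, ∀ b ∈ S, ∀ c ∈ S, H a < H c → H b < H c → X a < X b → 0 < dt a b c

lemma above {a b c : P} (h : a.1 < b.1) :
    a.2 + (b.2 - a.2) / (b.1 - a.1) * (c.1 - a.1) < c.2 ↔ 0 < dt a b c := by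
  have : 0 < b.1 - a.1 := by linarith
  rw [← lt_sub_iff_add_lt', div_mul_eq_mul_div, div_lt_iff₀ this, dt]
  constructor <;> intro <;> linarith

lemma rp_of_str (h : Str S) : ∃ X H, Rp S X H := by
  obtain ⟨T, h, ⟨h1, h2, h3⟩, f, b, s⟩ := h
  choose! g g1 g2 using fun a (ha : a ∈ (S : Set P)) => b.mapsTo ha
  have n : ∀ a ∈ S, ∀ c ∈ S, a ≠ c → g a ≠ g c := fun a ha c hc k e =>
    k (b.injOn ha hc (by rw [← g2 a ha, ← g2 c hc, e]))
  refine ⟨fun a => (g a).1, fun a => (g a).2, fun a ha c hc k =>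
    h1 _ (g1 a ha) _ (g1 c hc) (n a ha c hc k), fun a ha c hc d hd k1 k2 k3 => ?_⟩
  rw [← sign_eq_one_iff, s a ha c hc d hd, sign_eq_one_iff, ← g2 a ha, ← g2 c hc, ← g2 d hd]
  exact (above (a := ((g a).1, h (g a))) (b := ((g c).1, h (g c))) k3).mp
    (h3 _ (g1 a ha) _ (g1 c hc) _ (g1 d hd) (fun e => k3.ne (congrArg _ e)) k1 k2)

lemma heights (X H : P → ℝ) (S : Finset P) (n : ∀ a ∈ S, ∀ b ∈ S, a ≠ b → H a ≠ H b) :
    ∃ h : P → ℝ, (∀ a ∈ S, ∀ t ∈ S, H a < H t → h a < h t) ∧ ∀ a ∈ S, ∀ b ∈ S, ∀ t ∈ S,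
      H a < H t → H b < H t → h a + (h b - h a) / (X b - X a) * (X t - X a) < h t := by
  induction S using Finset.induction_on_max_value H with
  | empty => simp
  | insert c S hc mx ih =>
    obtain ⟨h, h1, h2⟩ := ih fun a ha b hb => n a (by simp [ha]) b (by simp [hb])
    obtain ⟨M, hM⟩ := (S.image h ∪ (S ×ˢ S).image fun q =>
      h q.1 + (h q.2 - h q.1) / (X q.2 - X q.1) * (X c - X q.1)).exists_le
    have m : ∀ a ∈ insert c S, ∀ t ∈ insert c S, H a < H t → a ∈ S ∧ a ≠ c := fun a ha t ht k => by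
      have : a ≠ c := by
        rintro rfl
        rcases mem_insert.mp ht with rfl | ht
        · exact k.false
        · exact (mx t ht).not_gt k
      exact ⟨(mem_insert.mp ha).resolve_left this, this⟩
    refine ⟨Function.update h c (M + 1), fun a ha t ht k => ?_, fun a ha b hb t ht k l => ?_⟩
    · obtain ⟨a1, a2⟩ := m a ha t ht k
      rw [Function.update_of_ne a2]
      rcases mem_insert.mp ht with rfl | ht
      · rw [Function.update_self]
        linarith [hM _ (mem_union_left _ (mem_image_of_mem _ a1))]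
      · rw [Function.update_of_ne (ne_of_mem_of_not_mem ht hc)]
        exact h1 a a1 t ht k
    · obtain ⟨a1, a2⟩ := m a ha t ht k
      obtain ⟨b1, b2⟩ := m b hb t ht l
      rw [Function.update_of_ne a2, Function.update_of_ne b2]
      rcases mem_insert.mp ht with rfl | ht
      · rw [Function.update_self]
        linarith [hM _ (mem_union_right _ (mem_image_of_mem _ (mk_mem_product a1 b1)))]
      · rw [Function.update_of_ne (ne_of_mem_of_not_mem ht hc)]
        exact h2 a a1 b b1 t ht k l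

lemma sgn {X H : P → ℝ} {f : P → P} (r : Rp S X H)
    (k : ∀ a ∈ S, ∀ b ∈ S, ∀ c ∈ S, H a < H c → H b < H c → X a < X b →
      0 < dt (f a) (f b) (f c)) (a : P) (ha : a ∈ S) (b : P) (hb : b ∈ S) (c : P) (hc : c ∈ S) :
    SignType.sign (dt a b c) = SignType.sign (dt (f a) (f b) (f c)) := by
  have t : ∀ a ∈ S, ∀ b ∈ S, ∀ c ∈ S, H a < H c → H b < H c →
      SignType.sign (dt a b c) = SignType.sign (dt (f a) (f b) (f c)) := fun a ha b hb c hc u v => by
    by_cases e : a = b
    · rw [e, z1, z1]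
    rcases lt_or_gt_of_ne (r.1 a ha b hb e).1 with l | l
    · rw [sign_pos (r.2 a ha b hb c hc u v l), sign_pos (k a ha b hb c hc u v l)]
    · rw [r2 a, r2 (f a), Left.sign_neg, Left.sign_neg, sign_pos (r.2 b hb a ha c hc v u l),
        sign_pos (k b hb a ha c hc v u l)]
  by_cases e1 : a = c
  · rw [e1, z2, z2]
  by_cases e2 : b = c
  · rw [e2, z3, z3]
  by_cases e3 : a = b
  · rw [e3, z1, z1]
  rcases lt_or_gt_of_ne (r.1 a ha c hc e1).2 with l1 | l1 <;>
    rcases lt_or_gt_of_ne (r.1 b hb c hc e2).2 with l2 | l2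
  · exact t a ha b hb c hc l1 l2
  · rw [← r1 c a b, ← r1 (f c)]; exact t c hc a ha b hb l2 (l1.trans l2)
  · rw [r1 a, r1 (f a)]; exact t b hb c hc a ha (l2.trans l1) l1
  rcases lt_or_gt_of_ne (r.1 a ha b hb e3).2 with l3 | l3
  · rw [← r1 c a b, ← r1 (f c)]; exact t c hc a ha b hb l2 l3
  · rw [r1 a, r1 (f a)]; exact t b hb c hc a ha l3 l1

lemma str_of_rp {X H : P → ℝ} (r : Rp S X H) : Str S := by
  obtain ⟨h, h1, h2⟩ := heights X H S fun a ha b hb k => (r.1 a ha b hb k).2
  have i : Set.InjOn (fun a => (X a, H a)) S := fun a ha b hb e => by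
    by_contra k
    exact (r.1 a ha b hb k).1 (congrArg Prod.fst e)
  let g := Function.invFunOn (fun a => (X a, H a)) S
  have e : ∀ a ∈ S, g (X a, H a) = a := fun a ha => i.leftInvOn_invFunOn ha
  refine ⟨S.image fun a => (X a, H a), fun t => h (g t), ⟨?_, ?_, ?_⟩, fun a => (X a, h a),
    ⟨fun a ha => ⟨(X a, H a), mem_coe.mpr (mem_image_of_mem _ ha), by simp only [e a ha]⟩,
      fun a ha b hb e => ?_, ?_⟩, sgn r fun a ha b hb c hc u v l => ?_⟩
  · simp only [forall_mem_image]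
    exact fun a ha b hb k => r.1 a ha b hb fun e => k (by rw [e])
  · simp only [forall_mem_image]
    exact fun a ha b hb k => by rw [e a ha, e b hb]; exact h1 a ha b hb k
  · simp only [forall_mem_image]
    exact fun a ha b hb c hc _ k l => by rw [e a ha, e b hb, e c hc]; exact h2 a ha b hb c hc k l
  · by_contra k
    exact (r.1 a ha b hb k).1 (congrArg Prod.fst e)
  · rintro _ ⟨t, ht, rfl⟩
    obtain ⟨a, ha, rfl⟩ := mem_image.mp (mem_coe.mp ht)
    exact ⟨a, ha, by simp only [e a ha]⟩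
  · exact (above (a := (X a, h a)) (b := (X b, h b)) (c := (X c, h c)) l).mp
      (h2 a ha b hb c hc u v)

lemma path_of_rp {X H : P → ℝ} (r : Rp S X H) : Stretched S := by
  have t : ∀ a ∈ S, ∀ b ∈ S, ∀ c ∈ S, a ≠ b → H a < H c → H b < H c →
      X a < X b ∧ 0 < dt a b c ∨ X b < X a ∧ dt a b c < 0 := fun a ha b hb c hc e u v =>
    (lt_or_gt_of_ne (r.1 a ha b hb e).1).imp (fun l => ⟨l, r.2 a ha b hb c hc u v l⟩)
      fun l => ⟨l, by linarith [r.2 b hb a ha c hc v u l, r2 a b c]⟩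
  have t' : ∀ a ∈ S, ∀ b ∈ S, ∀ c ∈ S, a ≠ b → H a < H c → H b < H c → dt a b c ≠ 0 :=
    fun a ha b hb c hc e u v => (t a ha b hb c hc e u v).elim (·.2.ne') (·.2.ne)
  refine stretched_iff.mpr ⟨fun a ha b hb c hc e3 e1 e2 => ?_, S.eq_empty_or_nonempty.imp id
    fun hS => ?_⟩
  · rcases lt_or_gt_of_ne (r.1 a ha c hc e1).2 with l1 | l1 <;>
      rcases lt_or_gt_of_ne (r.1 b hb c hc e2).2 with l2 | l2
    · exact t' a ha b hb c hc e3 l1 l2
    · rw [← r1 c a b]; exact t' c hc a ha b hb e1.symm l2 (l1.trans l2)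
    · rw [r1 a]; exact t' b hb c hc a ha e2 (l2.trans l1) l1
    rcases lt_or_gt_of_ne (r.1 a ha b hb e3).2 with l3 | l3
    · rw [← r1 c a b]; exact t' c hc a ha b hb e1.symm l2 l3
    · rw [r1 a]; exact t' b hb c hc a ha e2 l3 l1
  obtain ⟨p, hp, mx⟩ := S.exists_max_image H hS
  have m : ∀ a ∈ S, a ≠ p → H a < H p := fun a ha k => (mx a ha).lt_of_ne (r.1 a ha p hp k).2
  refine ⟨p, hp, fun a ha b hb c hc i => ?_, fun U s k => ?_⟩
  · obtain ⟨n1, n2, n3, n4, n5, n6⟩ := i.ne
    have f : ∀ a ∈ S, ∀ b ∈ S, a ≠ b → p ≠ a → p ≠ b → 0 < dt a b p → X a < X b :=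
      fun a ha b hb e u v l => ((t a ha b hb p hp e (m a ha u.symm) (m b hb v.symm)).resolve_right
        fun k => k.2.not_gt l).1
    linarith [f a ha b hb n4 n1 n2 i.1, f b hb c hc n6 n2 n3 i.2.1, f c hc a ha n5.symm n3 n1 i.2.2]
  · obtain ⟨u, hu, mu⟩ := U.exists_max_image H k.1
    obtain ⟨v, hv, w, hw, l⟩ := k.2 u hu
    obtain ⟨n1, n2, n3, n4, n5, n6⟩ := l.ne
    have a1 := t v (s hv) w (s hw) u (s hu) n1 ((mu v hv).lt_of_ne (r.1 v (s hv) u (s hu) n2.symm).2)
      ((mu w hw).lt_of_ne (r.1 w (s hw) u (s hu) n3.symm).2)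
    have a2 := t v (s hv) w (s hw) p hp n1 (m v (s hv) n4.symm) (m w (s hw) n5.symm)
    rcases l.cases with l | l <;> rcases a1 with a1 | a1 <;> rcases a2 with a2 | a2 <;>
      linarith [a1.1, a1.2, a2.1, a2.2, l.1, l.2]

lemma peel (p : P) (m : ℕ) : ∀ U : Finset P, U.card = m → (∀ W ⊆ U, ¬ Trap p W) →
    ∃ H : P → ℝ, (∀ a ∈ U, ∀ b ∈ U, a ≠ b → H a ≠ H b) ∧
      ∀ a ∈ U, ∀ b ∈ U, ∀ c ∈ U, H a < H c → H b < H c → ¬ Sep a b c p := by
  induction m with
  | zero => intro U e _; rw [card_eq_zero.mp e]; simp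
  | succ m ih =>
    intro U e h
    have := h U subset_rfl
    simp only [Trap, not_and, not_forall, not_exists] at this
    obtain ⟨u, hu, k⟩ := this (card_pos.mp (by omega))
    obtain ⟨H, h1, h2⟩ := ih (U.erase u) (by rw [card_erase_of_mem hu]; omega)
      fun W s => h W (s.trans (erase_subset _ _))
    obtain ⟨M, hM⟩ := (U.image H).exists_le
    have q : ∀ a ∈ U, H a < M + 1 := fun a ha => by linarith [hM _ (mem_image_of_mem _ ha)]
    have q' : ∀ a ∈ U, Function.update H u (M + 1) a ≤ M + 1 := fun a ha => by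
      by_cases e : a = u
      · rw [e, Function.update_self]
      · rw [Function.update_of_ne e]; exact (q a ha).le
    refine ⟨Function.update H u (M + 1), fun a ha b hb n => ?_, fun a ha b hb c hc u1 u2 => ?_⟩
    · by_cases e1 : a = u
      · subst e1
        rw [Function.update_self, Function.update_of_ne n.symm]
        exact (q b hb).ne'
      by_cases e2 : b = u
      · subst e2
        rw [Function.update_self, Function.update_of_ne n]
        exact (q a ha).ne
      rw [Function.update_of_ne e1, Function.update_of_ne e2]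
      exact h1 a (mem_erase.mpr ⟨e1, ha⟩) b (mem_erase.mpr ⟨e2, hb⟩) n
    · by_cases e : c = u
      · exact e ▸ k a ha b hb
      have f : ∀ a, Function.update H u (M + 1) a < Function.update H u (M + 1) c → a ≠ u := by
        rintro a l rfl
        rw [Function.update_self] at l
        exact (q' c hc).not_gt l
      have e1 := f a u1
      have e2 := f b u2
      rw [Function.update_of_ne e1, Function.update_of_ne e] at u1
      rw [Function.update_of_ne e2, Function.update_of_ne e] at u2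
      exact h2 a (mem_erase.mpr ⟨e1, ha⟩) b (mem_erase.mpr ⟨e2, hb⟩) c (mem_erase.mpr ⟨e, hc⟩) u1 u2

lemma rp_of_path (h : Stretched S) : ∃ X H, Rp S X H := by
  obtain ⟨g, rfl | ⟨p, hp, o, h⟩⟩ := stretched_iff.mp h
  · exact ⟨0, 0, by simp, by simp⟩
  obtain ⟨H, h1, h2⟩ := peel p _ (insert p (S.erase p)) rfl (by rwa [insert_erase hp])
  rw [insert_erase hp] at h1 h2
  obtain ⟨M, hM⟩ := (S.image H).exists_le
  have q : ∀ a ∈ S, H a < M + 1 := fun a ha => by linarith [hM _ (mem_image_of_mem _ ha)]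
  let X : P → ℝ := fun a => if a = p then -1 else ((S.filter fun u => 0 < dt p u a).card : ℕ)
  have x1 : ∀ a ∈ S, ∀ b ∈ S, 0 < dt p a b → X a < X b := fun a ha b hb l => by
    have n1 : a ≠ p := by rintro rfl; simp [z1] at l
    have n2 : b ≠ p := by rintro rfl; simp [z2] at l
    simp only [X, if_neg n1, if_neg n2, Nat.cast_lt]
    refine card_lt_card ((ssubset_iff_of_subset fun u hu => ?_).mpr ⟨a, by simp [ha, l], by simp [z3]⟩)
    rw [mem_filter] at hu ⊢
    refine ⟨hu.1, o.trans g hp hu.1 ha hb ?_ hu.2 l⟩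
    rintro rfl
    linarith [hu.2, r3 p a u]
  have x2 : ∀ a ∈ S, ∀ b ∈ S, a ≠ p → b ≠ p → a ≠ b → 0 < dt p a b ∨ 0 < dt p b a :=
    fun a ha b hb n1 n2 n => (g.tot hp ha hb n1.symm n2.symm n).imp id fun l => by
      linarith [r3 p a b]
  have x3 : ∀ a, a ≠ p → X p < X a := fun a n => by
    simp only [X, if_neg n, if_true]
    exact lt_of_lt_of_le (by norm_num) (Nat.cast_nonneg _)
  refine ⟨X, Function.update H p (M + 1), fun a ha b hb n => ?_, fun a ha b hb c hc u v l => ?_⟩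
  · by_cases e1 : a = p
    · subst e1
      rw [Function.update_self, Function.update_of_ne n.symm]
      exact ⟨(x3 b n.symm).ne, (q b hb).ne'⟩
    by_cases e2 : b = p
    · subst e2
      rw [Function.update_self, Function.update_of_ne n]
      exact ⟨(x3 a n).ne', (q a ha).ne⟩
    rw [Function.update_of_ne e1, Function.update_of_ne e2]
    exact ⟨(x2 a ha b hb e1 e2 n).elim (fun l => (x1 a ha b hb l).ne) fun l => (x1 b hb a ha l).ne',
      h1 a ha b hb n⟩
  · have f : ∀ a, Function.update H p (M + 1) a < Function.update H p (M + 1) c → a ≠ p := by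
      rintro a l rfl
      rw [Function.update_self] at l
      by_cases e : c = a
      · rw [e, Function.update_self] at l; exact l.false
      · rw [Function.update_of_ne e] at l; exact (q c hc).not_gt l
    have e1 := f a u
    have e2 := f b v
    have n : a ≠ b := fun e => l.ne (by rw [e])
    have d : 0 < dt a b p := by
      rw [← r1]
      exact (x2 a ha b hb e1 e2 n).resolve_right fun k => (x1 b hb a ha k).not_gt l
    by_cases e : c = p
    · exact e ▸ d
    rw [Function.update_of_ne e1, Function.update_of_ne e] at u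
    rw [Function.update_of_ne e2, Function.update_of_ne e] at v
    exact (g.tot ha hb hc n (fun k => u.ne (by rw [k])) fun k => v.ne (by rw [k])).resolve_right
      fun k => h2 a ha b hb c hc u v (sep_of d k).symm

theorem str_iff : Str S ↔ Stretched S :=
  ⟨fun h => (rp_of_str h).elim fun _ h => h.elim fun _ => path_of_rp,
    fun h => (rp_of_path h).elim fun _ h => h.elim fun _ => str_of_rp⟩

end Pool.Agent.H.MP_097bbc_lc
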